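import Pool.Agent.Helper76.PC.Stmts

/-!
MP_c33217_co, module DEG: fixing the degree of a vertex of a configuration.
-/

namespace Pool.Agent.Helper76.PC

theorem deg_mem (v d : ℕ) : ∀ (K : Cfg) (s : Vx), s ∈ setDeg v d K →
    ∃ r ∈ K, s.id = r.id ∧ s.sd = r.sd ∧ s.nb = r.nb ∧
      ((r.id = v ∧ s.lo = d ∧ s.hi = d) ∨ (s.lo = r.lo ∧ s.hi = r.hi))
  | [], s, h => by simp [setDeg] at h
  | q :: K, s, h => by
    simp only [setDeg, List.mem_cons] at h
    rcases h with h | h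
    · refine ⟨q, List.mem_cons_self, ?_⟩
      cases hb : Nat.beq q.id v with
      | true =>
        rw [hb] at h
        simp only [cond_true] at h
        subst h
        exact ⟨rfl, rfl, rfl, Or.inl ⟨Nat.eq_of_beq_eq_true hb, rfl, rfl⟩⟩
      | false =>
        rw [hb] at h
        simp only [cond_false] at h
        subst h
        exact ⟨rfl, rfl, rfl, Or.inr ⟨rfl, rfl⟩⟩
    · obtain ⟨r, hr, hrest⟩ := deg_mem v d K s h
      exact ⟨r, List.mem_cons_of_mem _ hr, hrest⟩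

theorem deg_mem_id (v d : ℕ) : ∀ (K : Cfg) (r : Vx), r ∈ K →
    ∃ s ∈ setDeg v d K, s.id = r.id
  | [], r, h => by simp at h
  | q :: K, r, h => by
    rcases List.mem_cons.1 h with h | h
    · refine ⟨_, List.mem_cons_self, ?_⟩
      subst h
      cases hb : Nat.beq r.id v with
      | true => simp only [cond_true]
      | false => simp only [cond_false]
    · obtain ⟨s, hs, hid⟩ := deg_mem_id v d K r h
      exact ⟨s, List.mem_cons_of_mem _ hs, hid⟩

theorem st_DEG (h : ST_LST) : ST_DEG := by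
  obtain ⟨_, _, _, _, _, _, _, _, _, _, _, hrange⟩ := h
  intro G φ f K E r hr
  refine ⟨(G.N (φ r.id)).card, ?_, ?_⟩
  · rw [hrange]
    have h1 := E.lo r hr
    have h2 := E.hi r hr
    omega
  · refine ⟨?_, ?_, ?_, ?_, ?_, ?_, ?_, ?_⟩
    · intro s hs
      obtain ⟨q, hq, h1, _⟩ := deg_mem _ _ _ _ hs
      rw [h1]; exact E.memV q hq
    · intro s hs
      obtain ⟨q, hq, h1, h2, _⟩ := deg_mem _ _ _ _ hs
      rw [h1, h2]; exact E.sd q hq
    · intro s hs
      obtain ⟨q, hq, h1, _, _, h4⟩ := deg_mem _ _ _ _ hs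
      rw [h1]
      rcases h4 with ⟨h5, h6, _⟩ | ⟨h6, _⟩
      · rw [h6, h5]
      · rw [h6]; exact E.lo q hq
    · intro s hs
      obtain ⟨q, hq, h1, _, _, h4⟩ := deg_mem _ _ _ _ hs
      rw [h1]
      rcases h4 with ⟨h5, _, h6⟩ | ⟨_, h6⟩
      · rw [h6, h5]
      · rw [h6]; exact E.hi q hq
    · intro s hs
      obtain ⟨q, hq, _, _, h3, _⟩ := deg_mem _ _ _ _ hs
      rw [h3]; exact E.nd q hq
    · intro s hs y hy
      obtain ⟨q, hq, h1, _, h3, _⟩ := deg_mem _ _ _ _ hs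
      rw [h3] at hy
      rw [h1]; exact E.adj q hq y hy
    · intro s hs y hy
      obtain ⟨q, hq, _, _, h3, _⟩ := deg_mem _ _ _ _ hs
      rw [h3] at hy
      obtain ⟨p, hp, hpy⟩ := E.cl q hq y hy
      obtain ⟨s', hs', hid⟩ := deg_mem_id r.id (G.N (φ r.id)).card K p hp
      exact ⟨s', hs', hid.trans hpy⟩
    · intro s hs t ht hst
      obtain ⟨q, hq, h1, _⟩ := deg_mem _ _ _ _ hs
      obtain ⟨p, hp, h2, _⟩ := deg_mem _ _ _ _ ht
      rw [h1, h2] at hst ⊢
      exact E.inj q hq p hp hst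

end Pool.Agent.Helper76.PC
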